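import Pool.Agent.Q113.KK

/-!
# Localized clique counting in uniform hypergraphs (`MP_cab928_co`)
-/

namespace Pool.Agent.Results.MP_cab928_co.LocalizedCliques

open Finset Pool.Agent.Q113.KK

universe u

section

variable {V : Type u} [Fintype V] [DecidableEq V]

/-- The degree `d(I)`: the number of edges containing the set `I`. -/
def deg (H : Finset (Finset V)) (I : Finset V) : ℕ := (H.filter (fun e => I ⊆ e)).card

/-- `x(I)`: the largest real solution `x` of `d(I) = C(x - i, q - i)`. -/
noncomputable def xI (H : Finset (Finset V)) (q i : ℕ) (I : Finset V) : ℝ :=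
  sSup {x : ℝ | (deg H I : ℝ) = rch (x - i) (q - i)}

/-- `x(T)`: the maximum of `x(I)` over the `i`-subsets `I` of `T`. -/
noncomputable def xT (H : Finset (Finset V)) (q i : ℕ) (T : Finset V) : ℝ :=
  sSup {x : ℝ | ∃ I ∈ T.powersetCard i, x = xI H q i I}

/-- `s'(T) = 1 / C(x(T) - q, t - q)`. -/
noncomputable def sT (H : Finset (Finset V)) (t q i : ℕ) (T : Finset V) : ℝ :=
  1 / rch (xT H q i T - q) (t - q)

/-- The set of `t`-cliques of the `q`-uniform hypergraph `H`. -/
def cliques (H : Finset (Finset V)) (t q : ℕ) : Finset (Finset V) :=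
  (univ.powersetCard t).filter (fun T => T.powersetCard q ⊆ H)

lemma cliques_eq (H : Finset (Finset V)) (t q : ℕ) : cliques H t q = cl q t H := by
  ext T
  rw [mem_cl, cliques, mem_filter, mem_powersetCard]
  constructor
  · rintro ⟨⟨-, h1⟩, h2⟩
    exact ⟨h1, fun e he hec => h2 (mem_powersetCard.2 ⟨he, hec⟩)⟩
  · rintro ⟨h1, h2⟩
    refine ⟨⟨subset_univ _, h1⟩, fun e he => ?_⟩
    rw [mem_powersetCard] at he
    exact h2 e he.1 he.2

/-- product identity for real binomial coefficients -/
lemma rch_mul (z : ℝ) (a b : ℕ) :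
    rch z (a + b) * ((a + b).choose a : ℝ) = rch z a * rch (z - a) b := by
  unfold rch
  rw [prod_range_add]
  have h1 : ∏ j ∈ range b, (z - ((a + j : ℕ) : ℝ)) = ∏ j ∈ range b, (z - a - j) :=
    prod_congr rfl fun j _ => by push_cast; ring
  rw [h1]
  have h2 : (((a + b).choose a : ℕ) : ℝ) * (a.factorial : ℝ) * (b.factorial : ℝ) =
      ((a + b).factorial : ℝ) := by
    have h := Nat.choose_mul_factorial_mul_factorial (Nat.le_add_right a b)
    rw [Nat.add_sub_cancel_left] at h
    exact_mod_cast h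
  have h3 : (a.factorial : ℝ) ≠ 0 := by positivity
  have h4 : (b.factorial : ℝ) ≠ 0 := by positivity
  have h5 : ((a + b).factorial : ℝ) ≠ 0 := by positivity
  field_simp
  rw [← h2]
  ring

variable {H : Finset (Finset V)} {t q i : ℕ}

/-- Properties of `x(I)`. -/
lemma xI_spec (hiq : i < q) (I : Finset V) :
    (q : ℝ) - 1 ≤ xI H q i I ∧ (deg H I : ℝ) = rch (xI H q i I - i) (q - i) := by
  have hqi : 1 ≤ q - i := by omega
  have hcast : ((q - i : ℕ) : ℝ) = (q : ℝ) - i := by rw [Nat.cast_sub hiq.le]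
  obtain ⟨y, hy1, hy2⟩ := exists_rch hqi (N := (deg H I : ℝ)) (by positivity)
  have hg : IsGreatest {x : ℝ | (deg H I : ℝ) = rch (x - i) (q - i)} (y + i) := by
    constructor
    · show (deg H I : ℝ) = rch (y + i - i) (q - i)
      rw [add_sub_cancel_right, hy2]
    · intro x hx
      by_contra hlt
      push Not at hlt
      have h1 : (deg H I : ℝ) = rch (x - i) (q - i) := hx
      have h2 := rch_strict hqi hy1 (show y < x - i by linarith)
      rw [hy2, ← h1] at h2
      exact lt_irrefl _ h2
  have hx : xI H q i I = y + i := hg.csSup_eq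
  rw [hx]
  refine ⟨?_, by rw [add_sub_cancel_right, hy2]⟩
  rw [hcast] at hy1
  linarith

lemma le_deg {T I : Finset V} (hT : T ∈ cliques H t q) (hI : I ∈ T.powersetCard i) (hiq : i < q) :
    (t - i).choose (q - i) ≤ deg H I := by
  rw [cliques_eq, mem_cl] at hT
  rw [mem_powersetCard] at hI
  have h1 : (T \ I).card = t - i := by rw [card_sdiff_of_subset hI.1, hT.1, hI.2]
  rw [← h1, ← card_powersetCard]
  apply card_le_card_of_injOn (fun f => I ∪ f)
  · intro f hf
    rw [mem_coe, mem_powersetCard] at hf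
    rw [mem_coe, mem_filter]
    have hd : Disjoint I f := disjoint_of_subset_right hf.1 disjoint_sdiff
    refine ⟨hT.2 _ (union_subset hI.1 (hf.1.trans sdiff_subset)) ?_, subset_union_left⟩
    rw [card_union_of_disjoint hd, hI.2, hf.2]; omega
  · intro f hf g hg hfg
    rw [mem_coe, mem_powersetCard] at hf hg
    have hd : Disjoint I f := disjoint_of_subset_right hf.1 disjoint_sdiff
    have hd' : Disjoint I g := disjoint_of_subset_right hg.1 disjoint_sdiff
    have h2 : (I ∪ f) \ I = (I ∪ g) \ I := congrArg (· \ I) hfg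
    rw [union_sdiff_cancel_left hd, union_sdiff_cancel_left hd'] at h2
    exact h2

/-- `x(I) ≥ t` if `I` lies in a `t`-clique. -/
lemma t_le_xI {T I : Finset V} (hT : T ∈ cliques H t q) (hI : I ∈ T.powersetCard i) (hiq : i < q)
    (hqt : q ≤ t) : (t : ℝ) ≤ xI H q i I := by
  have hqi : 1 ≤ q - i := by omega
  have hcast : ((q - i : ℕ) : ℝ) = (q : ℝ) - i := by rw [Nat.cast_sub hiq.le]
  have hcast2 : ((t - i : ℕ) : ℝ) = (t : ℝ) - i := by rw [Nat.cast_sub (by omega)]
  obtain ⟨h1, h2⟩ := xI_spec (H := H) hiq I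
  by_contra hlt
  push Not at hlt
  have h3 := rch_strict hqi (x := xI H q i I - i) (y := ((t - i : ℕ) : ℝ))
    (by rw [hcast]; linarith) (by rw [hcast2]; linarith)
  rw [rch_natCast, ← h2] at h3
  have h4 : (((t - i).choose (q - i) : ℕ) : ℝ) ≤ (deg H I : ℝ) := by
    exact_mod_cast le_deg hT hI hiq
  linarith

lemma xI_le_xT {T I : Finset V} (hI : I ∈ T.powersetCard i) : xI H q i I ≤ xT H q i T := by
  apply le_csSup
  · have : {x : ℝ | ∃ I ∈ T.powersetCard i, x = xI H q i I} =
        (fun I => xI H q i I) '' (T.powersetCard i : Set (Finset V)) := by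
      ext x
      constructor
      · rintro ⟨I, hI, rfl⟩; exact ⟨I, hI, rfl⟩
      · rintro ⟨I, hI, rfl⟩; exact ⟨I, hI, rfl⟩
    rw [this]
    exact ((T.powersetCard i).finite_toSet.image _).bddAbove
  · exact ⟨I, hI, rfl⟩

/-- The number of `t`-cliques through `I` is at most `C(x(I) - i, t - i)`. -/
lemma card_through_le (hH : ∀ e ∈ H, e.card = q) {I : Finset V} (hIc : I.card = i) (hiq : i < q)
    (hqt : q ≤ t) (hx : (t : ℝ) ≤ xI H q i I) :
    (((cliques H t q).filter (fun T => I ⊆ T)).card : ℝ) ≤ rch (xI H q i I - i) (t - i) := by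
  let L : Finset (Finset V) := (H.filter (fun e => I ⊆ e)).image (fun e => e \ I)
  have hLc : L.card = deg H I := by
    apply card_image_of_injOn
    intro e he f hf h
    rw [mem_coe, mem_filter] at he hf
    rw [← union_sdiff_of_subset he.2, ← union_sdiff_of_subset hf.2]
    exact congrArg _ h
  have hLs : ∀ e ∈ L, e.card = q - i := by
    intro e he
    obtain ⟨f, hf, rfl⟩ := mem_image.1 he
    rw [mem_filter] at hf
    rw [card_sdiff_of_subset hf.2, hH f hf.1, hIc]
  have h1 : ((cliques H t q).filter (fun T => I ⊆ T)).card ≤ (cl (q - i) (t - i) L).card := by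
    apply card_le_card_of_injOn (fun T => T \ I)
    · intro T hT
      rw [mem_coe, mem_filter, cliques_eq, mem_cl] at hT
      obtain ⟨⟨hT1, hT2⟩, hT3⟩ := hT
      rw [mem_coe, mem_cl]
      refine ⟨by rw [card_sdiff_of_subset hT3, hT1, hIc], fun e he hec => ?_⟩
      have hd : Disjoint I e := disjoint_of_subset_right he disjoint_sdiff
      refine mem_image.2 ⟨I ∪ e, mem_filter.2 ⟨hT2 _ ?_ ?_, subset_union_left⟩, ?_⟩
      · exact union_subset hT3 (he.trans sdiff_subset)
      · rw [card_union_of_disjoint hd, hIc, hec]; omega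
      · exact union_sdiff_cancel_left hd
    · intro T hT T' hT' h
      rw [mem_coe, mem_filter] at hT hT'
      rw [← union_sdiff_of_subset hT.2, ← union_sdiff_of_subset hT'.2]
      exact congrArg _ h
  obtain ⟨h2, h3⟩ := xI_spec (H := H) hiq I
  have h4 := cl_le (r := q - i) (t := t - i) (by omega) (by omega) L hLs (xI H q i I - i)
    (by rw [Nat.cast_sub (by omega)]; linarith) (by rw [hLc, h3])
  refine le_trans ?_ h4
  exact_mod_cast h1

/-- Local inequality at a fixed `i`-set. -/
lemma local_le (hH : ∀ e ∈ H, e.card = q) {I : Finset V} (hIc : I.card = i) (hiq : i < q)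
    (hqt : q ≤ t) :
    ∑ T ∈ (cliques H t q).filter (fun T => I ⊆ T), sT H t q i T ≤
      (deg H I : ℝ) / ((t - i).choose (q - i) : ℝ) := by
  rcases ((cliques H t q).filter (fun T => I ⊆ T)).eq_empty_or_nonempty with h0 | ⟨T₀, hT₀⟩
  · rw [h0, sum_empty]; positivity
  · rw [mem_filter] at hT₀
    have hx : (t : ℝ) ≤ xI H q i I :=
      t_le_xI hT₀.1 (mem_powersetCard.2 ⟨hT₀.2, hIc⟩) hiq hqt
    have hqt' : (q : ℝ) ≤ t := by exact_mod_cast hqt
    have hcast : ((t - q : ℕ) : ℝ) = (t : ℝ) - q := by rw [Nat.cast_sub hqt]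
    have hpos : 0 < rch (xI H q i I - q) (t - q) := by
      apply rch_pos; rw [hcast]; linarith
    have hs : ∀ T ∈ (cliques H t q).filter (fun T => I ⊆ T),
        sT H t q i T ≤ 1 / rch (xI H q i I - q) (t - q) := by
      intro T hT
      rw [mem_filter] at hT
      have h1 := xI_le_xT (H := H) (q := q) (mem_powersetCard.2 ⟨hT.2, hIc⟩)
      apply one_div_le_one_div_of_le hpos
      apply rch_mono
      · rw [hcast]; linarith
      · linarith
    have h1 := sum_le_sum hs
    rw [sum_const, nsmul_eq_mul] at h1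
    refine h1.trans ?_
    have h2 := card_through_le hH hIc hiq hqt hx
    have h3 : rch (xI H q i I - i) (t - i) * ((t - i).choose (q - i) : ℝ) =
        (deg H I : ℝ) * rch (xI H q i I - q) (t - q) := by
      have h4 := rch_mul (xI H q i I - i) (q - i) (t - q)
      have h5 : q - i + (t - q) = t - i := by omega
      rw [h5] at h4
      rw [h4, ← (xI_spec (H := H) hiq I).2]
      congr 2
      rw [Nat.cast_sub hiq.le]; ring
    have hchoose : (0 : ℝ) < ((t - i).choose (q - i) : ℝ) := by
      exact_mod_cast Nat.choose_pos (by omega)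
    rw [le_div_iff₀ hchoose, mul_one_div, div_mul_eq_mul_div, div_le_iff₀ hpos, ← h3]
    exact mul_le_mul_of_nonneg_right h2 hchoose.le

/-- double counting of pairs `I ⊆ e` -/
lemma sum_deg (hH : ∀ e ∈ H, e.card = q) :
    ∑ I ∈ (univ : Finset V).powersetCard i, (deg H I : ℝ) = (H.card : ℝ) * (q.choose i : ℝ) := by
  have h1 : ∑ I ∈ (univ : Finset V).powersetCard i, deg H I = H.card * q.choose i := by
    unfold deg
    have h2 : ∀ I : Finset V, (H.filter (fun e => I ⊆ e)).card = ∑ e ∈ H, if I ⊆ e then 1 else 0 :=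
      fun I => card_filter _ _
    rw [sum_congr rfl (fun I _ => h2 I), sum_comm]
    have h3 : ∀ e ∈ H, (∑ I ∈ (univ : Finset V).powersetCard i, if I ⊆ e then 1 else 0) =
        q.choose i := by
      intro e he
      rw [← card_filter, ← hH e he, ← card_powersetCard]
      congr 1
      ext I
      simp [mem_powersetCard, and_comm]
    rw [sum_congr rfl h3, sum_const, smul_eq_mul]
  exact_mod_cast h1

end

/-- **Localized clique inequality.**  For all integers `t ≥ q > i ≥ 1` and every finite `q`-uniform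
hypergraph `H` with `m` edges, `∑_{T} s'(T) ≤ m / C(t, q)`, the sum being over all `t`-cliques. -/
theorem result : ∀ (V : Type u) [Fintype V] [DecidableEq V] (t q i : ℕ), 1 ≤ i → i < q → q ≤ t →
    ∀ H : Finset (Finset V), (∀ e ∈ H, e.card = q) →
      ∑ T ∈ cliques H t q, sT H t q i T ≤ (H.card : ℝ) / (t.choose q : ℝ) := by
  intro V _ _ t q i _ hiq hqt H hH
  have hti : (0 : ℝ) < (t.choose i : ℝ) := by exact_mod_cast Nat.choose_pos (by omega)
  have htq : (0 : ℝ) < (t.choose q : ℝ) := by exact_mod_cast Nat.choose_pos hqt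
  have htiqi : (0 : ℝ) < ((t - i).choose (q - i) : ℝ) := by
    exact_mod_cast Nat.choose_pos (by omega)
  have h1 : (t.choose i : ℝ) * ∑ T ∈ cliques H t q, sT H t q i T =
      ∑ I ∈ (univ : Finset V).powersetCard i,
        ∑ T ∈ (cliques H t q).filter (fun T => I ⊆ T), sT H t q i T := by
    have h2 : ∀ I : Finset V, ∑ T ∈ (cliques H t q).filter (fun T => I ⊆ T), sT H t q i T =
        ∑ T ∈ cliques H t q, if I ⊆ T then sT H t q i T else 0 := fun I => sum_filter _ _
    rw [sum_congr rfl (fun I _ => h2 I), sum_comm, mul_sum]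
    refine sum_congr rfl fun T hT => ?_
    rw [← sum_filter, sum_const, nsmul_eq_mul]
    congr 1
    have hTc : T.card = t := by rw [cliques_eq, mem_cl] at hT; exact hT.1
    rw [← hTc, ← card_powersetCard]
    congr 2
    ext I
    simp [mem_powersetCard, and_comm]
  have h3 : ∑ I ∈ (univ : Finset V).powersetCard i,
        ∑ T ∈ (cliques H t q).filter (fun T => I ⊆ T), sT H t q i T ≤
      ∑ I ∈ (univ : Finset V).powersetCard i, (deg H I : ℝ) / ((t - i).choose (q - i) : ℝ) :=
    sum_le_sum fun I hI => local_le hH (mem_powersetCard.1 hI).2 hiq hqt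
  rw [← h1, ← sum_div, sum_deg hH] at h3
  have h4 : (t.choose q : ℝ) * (q.choose i : ℝ) =
      (t.choose i : ℝ) * ((t - i).choose (q - i) : ℝ) := by
    exact_mod_cast Nat.choose_mul (n := t) hiq.le
  rw [le_div_iff₀ htiqi] at h3
  have hqi : (0 : ℝ) < (q.choose i : ℝ) := by exact_mod_cast Nat.choose_pos hiq.le
  rw [le_div_iff₀ htq]
  have h5 : (∑ T ∈ cliques H t q, sT H t q i T) * (t.choose q : ℝ) * (q.choose i : ℝ) ≤
      (H.card : ℝ) * (q.choose i : ℝ) := by
    calc (∑ T ∈ cliques H t q, sT H t q i T) * (t.choose q : ℝ) * (q.choose i : ℝ)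
        = (∑ T ∈ cliques H t q, sT H t q i T) * ((t.choose q : ℝ) * (q.choose i : ℝ)) := by ring
      _ = (t.choose i : ℝ) * (∑ T ∈ cliques H t q, sT H t q i T) *
          ((t - i).choose (q - i) : ℝ) := by rw [h4]; ring
      _ ≤ _ := h3
  exact le_of_mul_le_mul_right h5 hqi

end Pool.Agent.Results.MP_cab928_co.LocalizedCliques
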